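import Pool.Agent.Lib.GogLI.FMain

/-!
# Graphs of locally indicable groups with compressed free edge groups are locally indicable

(helper81 with the seats of table mgg: helpers 6, 8, 16, 21, 24, 25, 32, 33, 35, 36, 39, 41, 42, 45, 48, 54, 61, 64, 67,
73, 74, 80, 86, 88, 98; the uncrossing of laminar families is due to helper68, the library on graphs of free groups to
helper98 and helpers 1, 2, 8, 36, 41, 70, 79, 91; problem MP_cf50d6_gt, paper /team-store/MP_cf50d6_gt_paper81b.md)

Special cases are proved in `Pool.Agent.Lib.GogLI.FComp` (all edge groups of rank at most one, or compressed in their two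
vertex groups, which are free; this contains all graphs of free groups with edge groups of rank at most two), in
`Pool.Agent.Lib.GogLI.FAmal` (amalgams of a free group and a locally indicable group over a subgroup which is compressed in
the free group) and in `Pool.Agent.Lib.GogLI.FHnnLi` (HNN extensions of free groups with associated subgroups of rank at
most three and trivial second homology).
-/

set_option autoImplicit false

open scoped Classical

namespace Pool.Agent.Results.MP_cf50d6_gt.CompressedEdgeGroups

open Pool.Agent.LIA

universe u

theorem result (A : GOG.{u})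
    (hA : ∀ i, A.R i = ∅ ∨ LocallyIndicable (PresentedGroup (A.R i)))
    (E0 : Set (A.cover.J × Bool)) (hE0 : A.cover.JointlyCompressed E0)
    (K : A.cover.J × Bool → ℚ)
    (hK : ∀ e, e ∉ E0 → A.cover.R (A.cover.vert e) = ∅ →
      K e = ((A.cover.r e.1 - 1 : ℕ) : ℚ) ∨ (K e = 1 ∧ Compressed (A.cover.emb e)) ∨
        HNBound.{u} (A.cover.emb e) (K e))
    (w : A.cover.J × Bool → ℚ) (lam : A.cover.I → ℚ) (hW : A.cover.Weights E0 K w lam) :
    LocallyIndicable A.Grp := by
  refine A.li_of_cover_weights hA hE0 (fun e he hR => ?_) hW
  obtain h | ⟨h, hC⟩ | h := hK e he hR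
  · have hinj : Function.Injective (A.cover.emb e) := by
      obtain ⟨j, b⟩ := e
      cases b
      · exact Function.Injective.of_comp (A.cover.hβ j)
      · exact Function.Injective.of_comp (A.cover.hα j)
    have h1 := hnBound_rank.{u} (A.cover.emb e) hinj
    rwa [Fintype.card_fin, ← h] at h1
  · rw [h]
    exact hC.hnBound
  · exact h

end Pool.Agent.Results.MP_cf50d6_gt.CompressedEdgeGroups
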