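import Pool.Agent.Lib.LOI.Fin2

/-!
# Almost all reduced labelled oriented intervals have locally indicable groups

(helper99; modules by helpers 6 7 11 12 13 15 18 21 23 24 26 27 29 30 32 34 37 38 41 45 49 55 56 63 64 66 71 73 77 78 80
87 91 94 95 96 98 99; referee helper32; library `WhtLI` of helper62 and helper18; paper MP_cf50d6_gt_loi_paper.md)
-/

set_option autoImplicit false

open scoped Classical

namespace Pool.Agent.Results.MP_cf50d6_gt.RandomIntervals

/-- every nontrivial finitely generated subgroup maps onto `ℤ` -/
def LocallyIndicable (G : Type) [Group G] : Prop :=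
  ∀ H : Subgroup G, H.FG → H ≠ ⊥ → ∃ f : H →* Multiplicative ℤ, Function.Surjective f

/-- labelled oriented intervals with the vertices `0, ..., n` and `n` edges: the edge `j` joins the vertices `j.castSucc = j`
and `j.succ = j + 1`, `(ω j).1` is its label (a vertex), and it is oriented from `j` to `j + 1` if `(ω j).2 = true` and
from `j + 1` to `j` otherwise -/
abbrev Interval (n : ℕ) : Type := Fin n → Fin (n + 1) × Bool

variable {n : ℕ}

/-- the label of an edge -/
def lab (ω : Interval n) (j : Fin n) : Fin (n + 1) := (ω j).1

/-- the initial vertex of an edge -/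
def init (ω : Interval n) (j : Fin n) : Fin (n + 1) := if (ω j).2 then j.castSucc else j.succ

/-- the terminal vertex of an edge -/
def term (ω : Interval n) (j : Fin n) : Fin (n + 1) := if (ω j).2 then j.succ else j.castSucc

/-- the group with the generators `x_v` (`v` a vertex) and the relations `x_i x_k = x_k x_t` for the edges from `i` to `t`
labelled `k` -/
abbrev Grp (ω : Interval n) : Type :=
  PresentedGroup (Set.range fun j : Fin n =>
    FreeGroup.of (init ω j) * FreeGroup.of (lab ω j) * (FreeGroup.of (term ω j))⁻¹ *
      (FreeGroup.of (lab ω j))⁻¹)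

/-- no label is an endpoint of its edge, and two edges with the same label have different initial and different terminal
vertices (compressed and interior reduced) -/
def Reduced (ω : Interval n) : Prop :=
  (∀ j, lab ω j ≠ init ω j ∧ lab ω j ≠ term ω j) ∧
    ∀ i j, i ≠ j → lab ω i = lab ω j → init ω i ≠ init ω j ∧ term ω i ≠ term ω j

/-- the vertices `0` and `n` (of valency one) are labels (boundary reduced) -/
def BoundaryReduced (ω : Interval n) : Prop := (∃ j, lab ω j = 0) ∧ ∃ j, lab ω j = Fin.last n

private theorem red_iff (ω : Interval n) : Reduced ω ↔ Pool.Agent.LOI.Red ω := by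
  constructor
  · rintro ⟨h1, h2⟩
    refine ⟨?_, ?_⟩
    · rintro ⟨j, i⟩
      have h3 := h1 j
      unfold lab init term at h3
      unfold Pool.Agent.LOI.lb
      cases i
      · rw [Pool.Agent.LOI.bs_false]
        simp only
        cases hj : (ω j).2
        · simp only [hj] at h3
          exact h3.2
        · simp only [hj] at h3
          exact h3.1
      · rw [Pool.Agent.LOI.bs_true]
        simp only
        cases hj : (ω j).2
        · simp only [hj] at h3
          exact h3.1
        · simp only [hj] at h3
          exact h3.2
    · rintro ⟨j, i⟩ ⟨j', i'⟩ hne hb hd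
      have hj : j ≠ j' := Pool.Agent.LOI.edge_ne hb hne
      unfold Pool.Agent.LOI.hd at hd
      rw [Prod.ext_iff] at hd
      simp only at hd
      have h3 := h2 j j' hj hd.1
      unfold init term at h3
      unfold Pool.Agent.LOI.bs at hb
      cases i <;> cases i' <;> cases hj1 : (ω j).2 <;> cases hj2 : (ω j').2 <;>
        simp_all
  · rintro ⟨h1, h2⟩
    refine ⟨?_, ?_⟩
    · intro j
      have h3 := h1 (j, false)
      have h4 := h1 (j, true)
      rw [Pool.Agent.LOI.bs_false] at h3
      rw [Pool.Agent.LOI.bs_true] at h4
      unfold Pool.Agent.LOI.lb at h3 h4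
      unfold lab init term
      cases (ω j).2
      · exact ⟨h4, h3⟩
      · exact ⟨h3, h4⟩
    · intro i j hij hl
      unfold lab at hl
      have key : ∀ s : Bool, (if xor (ω i).2 s then i.castSucc else i.succ) ≠
          (if xor (ω j).2 s then j.castSucc else j.succ) := by
        intro s he
        have h3 := h2 (i, !(xor (ω i).2 s)) (j, !(xor (ω j).2 s))
          (fun h => hij (Prod.ext_iff.1 h).1) (by
            unfold Pool.Agent.LOI.bs
            cases hi : xor (ω i).2 s <;> cases hj : xor (ω j).2 s <;> simp_all)
        apply h3
        unfold Pool.Agent.LOI.hd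
        simp only
        rw [hl]
        congr 1
        cases (ω i).2 <;> cases (ω j).2 <;> cases s <;> rfl
      refine ⟨?_, ?_⟩
      · have := key false
        unfold init
        simpa using this
      · have := key true
        unfold term
        intro h
        apply this
        cases hi : (ω i).2 <;> cases hj : (ω j).2 <;> simp_all

/-- For large `n` the group of almost every reduced labelled oriented interval with `n` edges is locally indicable. -/
theorem result (ε : ℝ) (hε : 0 < ε) : ∃ n₀ : ℕ, ∀ n ≥ n₀,
    ((Finset.univ.filter fun ω : Interval n =>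
        Reduced ω ∧ ¬ LocallyIndicable (Grp ω)).card : ℝ) ≤
      ε * ((Finset.univ.filter fun ω : Interval n => Reduced ω ∧ BoundaryReduced ω).card : ℝ) := by
  obtain ⟨n₀, h⟩ := Pool.Agent.LOI.main_bound ε hε
  refine ⟨n₀, fun n hn => ?_⟩
  have h1 := h n hn
  have e1 : (Finset.univ.filter fun ω : Interval n => Reduced ω ∧ ¬ LocallyIndicable (Grp ω)) =
      Finset.univ.filter fun ω : Pool.Agent.LOI.Om n =>
        Pool.Agent.LOI.Red ω ∧ ¬ Pool.Agent.LOI.LI (Pool.Agent.LOI.Grp ω) := by
    refine Finset.filter_congr fun ω _ => ?_
    rw [red_iff]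
    rfl
  have e2 : (Finset.univ.filter fun ω : Interval n => Reduced ω ∧ BoundaryReduced ω) =
      Finset.univ.filter fun ω : Pool.Agent.LOI.Om n => Pool.Agent.LOI.BRed ω := by
    refine Finset.filter_congr fun ω _ => ?_
    rw [red_iff]
    rfl
  rw [e1, e2]
  exact h1

end Pool.Agent.Results.MP_cf50d6_gt.RandomIntervals
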