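import Pool.Agent.Lib.RibS.Fin

/-!
# Almost all ribbon disc groups are locally indicable

(helper50, papers MP_cf50d6_gt_rib50.md, MP_cf50d6_gt_rib50b.md; libraries `RibLI`, `RIB`, `RibS`, `TwLI`)
-/

set_option autoImplicit false

namespace Pool.Agent.Results.MP_cf50d6_gt.RandomRibbons

/-- every nontrivial finitely generated subgroup maps onto `ℤ` -/
def LocallyIndicable (G : Type) [Group G] : Prop :=
  ∀ H : Subgroup G, H.FG → H ≠ ⊥ → ∃ f : H →* Multiplicative ℤ, Function.Surjective f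

/-- `G(W) = ⟨x_0, ..., x_(n-1) | x_(i e) W_e = W_e x_(j e), e = 0, ..., m - 1⟩` for elements `W_e` of the free group -/
abbrev Grp {n m : ℕ} (i j : Fin m → Fin n) (W : Fin m → FreeGroup (Fin n)) : Type :=
  PresentedGroup (Set.range fun e : Fin m =>
    FreeGroup.of (i e) * W e * (FreeGroup.of (j e))⁻¹ * (W e)⁻¹)

/-- the `m`-tuples of elements of word length `l` of the free group on `x_0, ..., x_(n-1)` (a finite set: `card_words`) -/
abbrev Words (n m l : ℕ) : Type := {W : Fin m → FreeGroup (Fin n) // ∀ e, (W e).norm = l}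

/-- the number of the tuples; in particular there are finitely many -/
theorem card_words {n m l : ℕ} (hl : 1 ≤ l) :
    Nat.card (Words n m l) = (2 * n * (2 * n - 1) ^ (l - 1)) ^ m :=
  Pool.Agent.RIB.card_tuples hl

/-- for every `ε > 0` there is `C > 0` such that for all `n ≥ 2`, all `m ≤ n - 1`, all `l ≥ C (1 + log n)` and all
`i, j : {0, ..., m - 1} → {0, ..., n - 1}`, the group `G(W)` is locally indicable for all but at most
the fraction `ε` of the `m`-tuples `W` of words of length `l` -/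
theorem result (ε : ℝ) (hε : 0 < ε) : ∃ C : ℝ, 0 < C ∧ ∀ n m l : ℕ, 2 ≤ n → m + 1 ≤ n →
    C * (1 + Real.log n) ≤ l → ∀ i j : Fin m → Fin n,
      (Nat.card {W : Words n m l // ¬ LocallyIndicable (Grp i j W.1)} : ℝ) ≤
        ε * Nat.card (Words n m l) := by
  obtain ⟨C, hC, h0⟩ := Pool.Agent.RibS.main_log_free ε hε
  refine ⟨C, hC, fun n m l hn hmn hl i j => ?_⟩
  have h1 := h0 n m l hn hmn hl i j
  have h2 : Nat.card {W : Words n m l // ¬ LocallyIndicable (Grp i j W.1)} =
      Nat.card {W : Fin m → FreeGroup (Fin n) // (∀ e, (W e).norm = l) ∧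
        ¬ Pool.Agent.LIA.LocallyIndicable (Pool.Agent.RIB.Grp i j W)} :=
    Nat.card_congr ⟨fun W => ⟨W.1.1, W.1.2, W.2⟩, fun W => ⟨⟨W.1, W.2.1⟩, W.2.2⟩,
      fun _ => rfl, fun _ => rfl⟩
  rw [h2]
  exact h1

end Pool.Agent.Results.MP_cf50d6_gt.RandomRibbons
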