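import Pool.Agent.Lib.WhtLI.ThmW

/-!
# Nonpositive sectional curvature relative to locally indicable groups, measured in a locally indicable quotient

(helper18 and helper62; suggestions by helper98; modules of `Lib/InjLI` by helpers 6 9 11 13 14 15 17 21 26 33 34 36 48 51 55
57 61 65 66 67 68 69 73 78 79 80 83 87 88 91 92 98; the library of finite acyclic graphs is by helper98 and helper81; paper
MP_cf50d6_gt_paper18rel.md)
-/

set_option autoImplicit false

open scoped Classical

namespace Pool.Agent.Results.MP_cf50d6_gt.RelativeCurvature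

universe u v

/-- every nontrivial finitely generated subgroup maps onto `ℤ` -/
def LocallyIndicable (G : Type*) [Group G] : Prop :=
  ∀ H : Subgroup G, H.FG → H ≠ ⊥ → ∃ f : H →* Multiplicative ℤ, Function.Surjective f

/-- the letters: the elements of the groups `H b` and the free letters `t : T` -/
abbrev Letter {I : Type} (H : I → Type u) (T : Type) : Type u := (Σ b, H b) ⊕ T

section words

variable {I T E : Type} {H : I → Type u} {m : E → ℕ}

/-- cyclic words `a e 0, ..., a e (m e)`, `e : E`, in letters with signs (`c + 1` is cyclic); a letter `(x, true)` goes from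
the initial to the terminal end of `x`, a letter `(x, false)` from the terminal to the initial end -/
abbrev Words (H : I → Type u) (T : Type) (m : E → ℕ) : Type u :=
  ∀ e : E, Fin (m e + 1) → Letter H T × Bool

/-- the corners of the words: `(e, c)` is the place between the letters `c - 1` and `c` of the word `e` -/
abbrev Corner (m : E → ℕ) : Type := Σ e : E, Fin (m e + 1)

/-- the class of an end (`(x, true)` is the initial end of `x`, `(x, false)` the terminal end): the ends of all letters of
`H b` form one class, the initial end and the terminal end of a free letter are two classes -/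
def cls : Letter H T × Bool → I ⊕ (T × Bool)
  | (Sum.inl x, _) => Sum.inl x.1
  | (Sum.inr t, c) => Sum.inr (t, c)

variable (a : Words H T m)

/-- the end at the corner of the letter after it -/
def nxt (κ : Corner m) : Letter H T × Bool := a κ.1 κ.2

/-- the end at the corner of the letter before it -/
def prv (κ : Corner m) : Letter H T × Bool :=
  ((a κ.1 (κ.2 - 1)).1, !(a κ.1 (κ.2 - 1)).2)

/-- the ends at the corners in `K` -/
noncomputable def ends (K : Finset (Corner m)) : Finset (Letter H T × Bool) :=
  K.image (nxt a) ∪ K.image (prv a)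

/-- the classes of the ends at the corners in `K` -/
noncomputable def classes (K : Finset (Corner m)) : Finset (I ⊕ (T × Bool)) :=
  (ends a K).image cls

/-- `K`, as a graph on its classes, is 2-edge-connected: for every nonempty proper subset `U` of the classes at least two
corners of `K` have exactly one of their two classes in `U` -/
def TwoConnected (K : Finset (Corner m)) : Prop :=
  K.Nonempty ∧ ∀ U : Finset (I ⊕ (T × Bool)), U.Nonempty → U ⊂ classes a K →
    2 ≤ (K.filter fun κ => ¬ (cls (nxt a κ) ∈ U ↔ cls (prv a κ) ∈ U)).card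

end words

section

variable {I T E : Type} {H : I → Type u} [∀ b, Group (H b)] {m : E → ℕ}

/-- the free product of the groups `H b` and the free group with the basis `T` -/
abbrev FreeProd {I : Type} (H : I → Type u) [∀ b, Group (H b)] (T : Type) : Type u :=
  Monoid.Coprod (Monoid.CoprodI H) (FreeGroup T)

/-- a letter as an element of the free product -/
def val : Letter H T → FreeProd H T
  | Sum.inl x => Monoid.Coprod.inl (Monoid.CoprodI.of x.2)
  | Sum.inr t => Monoid.Coprod.inr (FreeGroup.of t)

/-- the word `e` as an element of the free product -/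
def rel (a : Words H T m) (e : E) : FreeProd H T :=
  (List.ofFn fun c => if (a e c).2 then val (a e c).1 else (val (a e c).1)⁻¹).prod

/-- the quotient of the free product by the words -/
abbrev Grp (a : Words H T m) : Type u :=
  FreeProd H T ⧸ Subgroup.normalClosure (Set.range (rel a))

variable {L : Type v} [Group L] (a : Words H T m) (χ : FreeProd H T →* L)

/-- `h c` are heights in `L` of the corners `c` of the word `e`: a letter `(x, true)` goes from the height `g` to
`g * χ x` -/
def Heights (e : E) (h : Fin (m e + 1) → L) : Prop :=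
  ∀ c, h (c + 1) = h c * if (a e c).2 then χ (val (a e c).1) else (χ (val (a e c).1))⁻¹

/-- the height of the initial end of the letter which has the end `ε` at the height `g` -/
def init (ε : Letter H T × Bool) (g : L) : L := if ε.2 then g else g * (χ (val ε.1))⁻¹

/-- at the corners in `K`, which are at the height `g`, there is an end of a letter `x` of `H b` which is up for the signs
`s x g'` of the letters with initial ends at the heights `g'`: the initial end of `x` is up if the sign is `true`, the
terminal end if it is `false` -/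
def Up (K : Finset (Corner m)) (b : I) (s : (Σ b, H b) → L → Bool) (g : L) : Prop :=
  ∃ (x : H b) (c : Bool), (Sum.inl ⟨b, x⟩, c) ∈ ends a K ∧
    s ⟨b, x⟩ (init χ (Sum.inl ⟨b, x⟩, c) g) = c

/-- a step in `L × H b` along a letter of `H b` of a word in `F` from its up end to its other end, with heights in `S` -/
def UpStep (F : Finset E) (S : Finset L) (b : I) (s : (Σ b, H b) → L → Bool) (p q : L × H b) :
    Prop :=
  p.1 ∈ S ∧ q.1 ∈ S ∧ ∃ e ∈ F, ∃ c x, (a e c).1 = Sum.inl ⟨b, x⟩ ∧
    ((s ⟨b, x⟩ p.1 = true ∧ q = (p.1 * χ (val (Sum.inl ⟨b, x⟩)), p.2 * x)) ∨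
      (s ⟨b, x⟩ q.1 = false ∧ p = (q.1 * χ (val (Sum.inl ⟨b, x⟩)), q.2 * x)))

/-- the contribution of a class to the right side of the curvature condition -/
noncomputable def gain {O : Type} [Fintype O] (K : Finset (Corner m))
    (s : O → (Σ b, H b) → L → Bool) (α : I → O → L → ℝ) (g : L) : I ⊕ (T × Bool) → ℝ
  | Sum.inl b => ∑ o, if Up a χ K b (s o) g then α b o g else 0
  | Sum.inr j => if j.2 then 0 else 1

/-- nonpositive curvature for the words in `F` and the heights in `S`, with weights `w` of the corners, weights `α` of the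
vectors `s o` of signs, and transfers `t` along the letters -/
structure Curvature (F : Finset E) (S : Finset L) {O : Type} [Fintype O]
    (s : O → (Σ b, H b) → L → Bool) (w : Corner m → L → ℝ) (α : I → O → L → ℝ)
    (t : Letter H T → L → ℝ) : Prop where
  nonneg : ∀ b o g, 0 ≤ α b o g
  le_one : ∀ b g, ∑ o, α b o g ≤ 1
  /-- `α b o` is constant on the cosets of the image of `H b` -/
  inv : ∀ b o g (x : H b), α b o (g * χ (val (Sum.inl ⟨b, x⟩))) = α b o g
  /-- no closed paths of up steps -/
  pos : ∀ b o (p : L × H b), α b o p.1 ≠ 0 →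
    ¬ Relation.TransGen (UpStep a χ F S b (s o)) p p
  weight : ∀ e ∈ F, ∀ h, Heights a χ e h → (∀ c, h c ∈ S) → 1 ≤ ∑ c, w ⟨e, c⟩ (h c)
  curv : ∀ g ∈ S, ∀ K : Finset (Corner m), TwoConnected a K →
    (∀ κ ∈ K, κ.1 ∈ F ∧ ∃ h, Heights a χ κ.1 h ∧ h κ.2 = g ∧ ∀ c, h c ∈ S) →
    ∑ κ ∈ K, w κ g + 1 ≤ (∑ j ∈ classes a K, gain a χ K s α g j) +
      ∑ ε ∈ ends a K, (if ε.2 then (1 : ℝ) else -1) * t ε.1 (init χ ε g)

end

open Pool.Agent.WhtLI in
theorem result {I T E : Type} {H : I → Type u} [∀ b, Group (H b)]
    (hH : ∀ b, LocallyIndicable (H b)) {m : E → ℕ} (a : Words H T m)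
    (alt : ∀ κ, cls (prv a κ) ≠ cls (nxt a κ)) {L : Type v} [Group L]
    (hL : LocallyIndicable L) (χ : FreeProd H T →* L) (hχ : ∀ e, χ (rel a e) = 1)
    (hC : ∀ (F : Finset E) (S : Finset L), ∃ (O : Type) (_ : Fintype O)
      (s : O → (Σ b, H b) → L → Bool) (w : Corner m → L → ℝ) (α : I → O → L → ℝ)
      (t : Letter H T → L → ℝ), Curvature a χ F S s w α t) :
    LocallyIndicable (Grp a) ∧
      ∀ b, Function.Injective fun x : H b =>
        (QuotientGroup.mk (val (Sum.inl ⟨b, x⟩)) : Grp a) := by
  have hlec : ∀ ε : Letter H T × Bool, lec ε = cls ε := by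
    rintro ⟨x | t, c⟩ <;> rfl
  have alt' : ∀ e c, lec (Pool.Agent.LIA.linv (a e c)) ≠ lec (a e (c + 1)) := by
    intro e c h
    have h1 := alt ⟨e, c + 1⟩
    unfold prv nxt at h1
    simp only [add_sub_cancel_right] at h1
    rw [hlec, hlec] at h
    exact h1 h
  let χb : ∀ b, H b →* L := fun b => χ.comp (fpH b)
  let σ : T → L := fun t => χ (fpT t)
  have hev : ∀ x, ev χb σ x = χ (val x) := by
    rintro (x | t) <;> rfl
  have hrel : ∀ e, relT a e = rel a e := by
    intro e
    unfold relT wval rel
    congr 2
  have hends : ∀ K, (PW a alt').endK K = ends a K := by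
    intro K
    ext ε
    rw [OW.mem_endK]
    unfold ends
    rw [Finset.mem_union, Finset.mem_image, Finset.mem_image]
    constructor
    · rintro ⟨κ, hκ, rfl | rfl⟩
      · exact Or.inl ⟨κ, hκ, rfl⟩
      · exact Or.inr ⟨κ, hκ, rfl⟩
    · rintro (⟨κ, hκ, rfl⟩ | ⟨κ, hκ, rfl⟩)
      · exact ⟨κ, hκ, Or.inl rfl⟩
      · exact ⟨κ, hκ, Or.inr rfl⟩
  have hclasses : ∀ K, (PW a alt').Bk K = classes a K := by
    intro K
    ext j
    rw [OW.mem_bk]
    unfold classes
    rw [Finset.mem_image]
    constructor
    · rintro ⟨κ, hκ, rfl | rfl⟩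
      · refine ⟨nxt a κ, ?_, (hlec _).symm⟩
        unfold ends
        exact Finset.mem_union_left _ (Finset.mem_image_of_mem _ hκ)
      · refine ⟨prv a κ, ?_, (hlec _).symm⟩
        unfold ends
        exact Finset.mem_union_right _ (Finset.mem_image_of_mem _ hκ)
    · rintro ⟨ε, hε, rfl⟩
      unfold ends at hε
      rw [Finset.mem_union, Finset.mem_image, Finset.mem_image] at hε
      rcases hε with ⟨κ, hκ, rfl⟩ | ⟨κ, hκ, rfl⟩
      · exact ⟨κ, hκ, Or.inl (hlec _).symm⟩
      · exact ⟨κ, hκ, Or.inr (hlec _).symm⟩
  have hhl : ∀ ε g, hl (ev χb σ) ε g = init χ ε g := by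
    intro ε g
    unfold hl init
    rw [hev]
  have hHt : ∀ e h, (PW a alt').Ht (ev χb σ) e h ↔ Heights a χ e h := by
    intro e h
    unfold OW.Ht Heights
    refine forall_congr' fun c => ?_
    rw [hev]
    rfl
  have hUp : ∀ K b s g, UpW a alt' χb σ K b s g ↔ Up a χ K b s g := by
    intro K b s g
    unfold UpW Up
    refine exists_congr fun x => exists_congr fun c => ?_
    rw [hends, hhl]
  have hmain := thmW a alt' hH hL χb σ (fun e => by
      have h1 := hχ e
      rw [← hrel, relT, map_wval] at h1
      exact h1)
    (fun F S => by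
      obtain ⟨O, hO, s, w, α, t, h⟩ := hC F S
      refine ⟨O, hO, s, w, α, t, ⟨h.nonneg, h.le_one, h.inv, h.pos, ?_, ?_⟩⟩
      · intro e he hh h1 h2
        exact h.weight e he hh ((hHt e hh).1 h1) h2
      · intro g hg K hK hfit
        have hK' : TwoConnected a K := by
          refine ⟨hK.1, fun U hU hU' => ?_⟩
          rw [← hclasses] at hU'
          have h1 := hK.2 U hU hU'
          have h2 : (K.filter fun κ => (PW a alt').Cr κ U) =
              K.filter fun κ => ¬ (cls (nxt a κ) ∈ U ↔ cls (prv a κ) ∈ U) := by
            refine Finset.filter_congr fun κ _ => ?_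
            unfold OW.Cr
            rw [← hlec, ← hlec]
            rfl
          rw [h2] at h1
          exact h1
        have h1 := h.curv g hg K hK' (by
          intro κ hκ
          obtain ⟨h2, hh, h3, h4⟩ := hfit κ hκ
          exact ⟨h2, hh, (hHt _ _).1 h3, h4⟩)
        have h2 : ∀ j, cval a alt' χb σ K s α g j = gain a χ K s α g j := by
          rintro (b | j)
          · unfold cval gain
            refine Finset.sum_congr rfl fun o _ => ?_
            rw [hUp]
          · rfl
        rw [hclasses, hends]
        simp only [h2, hhl]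
        exact h1)
  have hgrp : Set.range (relT a) = Set.range (rel a) := by
    rw [show relT a = rel a from funext hrel]
  unfold Grp
  rw [← hgrp]
  exact hmain

end Pool.Agent.Results.MP_cf50d6_gt.RelativeCurvature
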